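import Mathlib
import Pool.Agent.H7.OPP.Stmts

/-!
# OPP, module R1: the diagonal matrix units are represented by matrices of trace one
-/

set_option autoImplicit false

namespace Pool.OPP

open scoped Topology ComplexConjugate

noncomputable section

/-- the trace of an idempotent complex matrix is a natural number -/
theorem R1_trace_nat {n : Type} [Fintype n] [DecidableEq n] (P : Matrix n n ℂ) (h : P * P = P) :
    ∃ d : ℕ, Matrix.trace P = d := by
  have h1 : IsIdempotentElem (Matrix.toLin' P) := by
    show Matrix.toLin' P * Matrix.toLin' P = Matrix.toLin' P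
    rw [Module.End.mul_eq_comp, ← Matrix.toLin'_mul, h]
  refine ⟨Module.finrank ℂ (LinearMap.range (Matrix.toLin' P)), ?_⟩
  rw [← Matrix.trace_toLin'_eq, (LinearMap.IsIdempotentElem.isProj_range _ h1).trace]

theorem R1_gen_E (i j : II) (h : linked i j) : gen (Sum.inl (i, j)) = gE i j := by
  simp [gen, h]

theorem R1_gen_Y (k : Fin 3) : gen (Sum.inr (Sum.inl (k, false))) = gY k := by
  simp [gen]

theorem R1_gen_Y' (k : Fin 3) : gen (Sum.inr (Sum.inl (k, true))) = star (gY k) := by
  simp [gen]

theorem R1_gen_H (k l : Fin 3) : gen (Sum.inr (Sum.inr (Sum.inr (k, l)))) = gH k l := by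
  simp [gen]

theorem sR1 (hN : SNum) (hR : SRr0) (hG : SGen) : SR1 := by
  classical
  intro θ x hx
  obtain ⟨hadd, hst, hone, -, -⟩ := hR θ x
  obtain ⟨g1, g2, g3, g4, g5, g6, g7, g8, g9, g10, g11, g12, g13, g14, g15, g16, g17, g18, g19,
    g20, g21⟩ := hG
  have hC : ∀ g, Cm θ x (gen g) := fun g => ⟨(g1 g).2, hx g⟩
  have hCE : ∀ i j, linked i j → Cm θ x (gE i j) := by
    intro i j h
    have := hC (Sum.inl (i, j))
    rwa [R1_gen_E i j h] at this
  have hl : ∀ i, linked i i := fun i => ⟨rfl, Iff.rfl⟩
  have hCY : ∀ k, Cm θ x (gY k) := by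
    intro k
    have := hC (Sum.inr (Sum.inl (k, false)))
    rwa [R1_gen_Y] at this
  have hCH : ∀ k l, Cm θ x (gH k l) := by
    intro k l
    have := hC (Sum.inr (Sum.inr (Sum.inr (k, l))))
    rwa [R1_gen_H] at this
  have hCYs : ∀ k, Cm θ x (star (gY k)) := fun k => (hst _ (hCY k)).2.1
  -- finite sums
  have hsum : ∀ (ι : Type) (s : Finset ι) (b : ι → BB), (∀ i, Cm θ x (b i)) →
      Cm θ x (∑ i ∈ s, b i) ∧ RR θ x (∑ i ∈ s, b i) = ∑ i ∈ s, RR θ x (b i) := by
    intro ι s b hb
    induction s using Finset.induction_on with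
    | empty =>
      have h0 := (hst _ (hone.1)).2.2 0
      simp only [zero_smul] at h0
      simp [h0.1, h0.2]
    | insert a s ha ih =>
      rw [Finset.sum_insert ha, Finset.sum_insert ha]
      obtain ⟨-, -, q1, q2⟩ := hadd _ _ (hb a) ih.1
      exact ⟨q2, by rw [q1, ih.2]⟩
  -- the trace of a projection is a natural number
  have hnat : ∀ i, ∃ d : ℕ, Matrix.trace (RR θ x (gE i i)) = d := by
    intro i
    apply R1_trace_nat
    have := (hadd _ _ (hCE i i (hl i)) (hCE i i (hl i))).1
    rw [← this, g5]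
    simp
  choose d hd using hnat
  -- linked indices have the same trace
  have hlink : ∀ i j, linked i j → d i = d j := by
    intro i j h
    have h' : linked j i := ⟨h.1.symm, h.2.symm⟩
    have e1 := (hadd _ _ (hCE i j h) (hCE j i h')).1
    have e2 := (hadd _ _ (hCE j i h') (hCE i j h)).1
    rw [g5, if_pos rfl] at e1 e2
    have : (d i : ℂ) = d j := by
      rw [← hd i, ← hd j, e1, e2, Matrix.trace_mul_comm]
    exact_mod_cast this
  -- istar and bas 0
  have hstar : d istar = d (bas 0) := by
    have a1 : gE istar istar = ∑ k, gY k * star (gY k) := by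
      rw [Finset.sum_congr rfl (fun k _ => g8 k k), ← Finset.sum_mul, g10, one_mul]
    have a2 : gE (bas 0) (bas 0) = ∑ k, star (gY k) * gY k := by
      rw [Finset.sum_congr rfl (fun k _ => g7 k k), ← Finset.sum_mul, g10, one_mul]
    have c1 : ∀ k, Cm θ x (gY k * star (gY k)) := fun k => (hadd _ _ (hCY k) (hCYs k)).2.1
    have c2 : ∀ k, Cm θ x (star (gY k) * gY k) := fun k => (hadd _ _ (hCYs k) (hCY k)).2.1
    have : (d istar : ℂ) = d (bas 0) := by
      rw [← hd istar, ← hd (bas 0), a1, a2, (hsum _ _ _ c1).2, (hsum _ _ _ c2).2,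
        Matrix.trace_sum, Matrix.trace_sum]
      apply Finset.sum_congr rfl
      intro k _
      rw [(hadd _ _ (hCY k) (hCYs k)).1, (hadd _ _ (hCYs k) (hCY k)).1, Matrix.trace_mul_comm]
    exact_mod_cast this
  -- all indices of one block
  have hblock : ∀ i : II, d i = d (bas i.1) := by
    intro i
    by_cases hi : i = istar
    · subst hi
      exact hstar
    · apply hlink
      refine ⟨rfl, ?_⟩
      constructor
      · intro h; exact absurd h hi
      · intro h; exact absurd h (bas_ne_istar _)
  -- sum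
  have htot : (∑ i : II, (d i : ℂ)) = Fintype.card II := by
    have e1 : RR θ x (∑ i : II, gE i i) = ∑ i : II, RR θ x (gE i i) :=
      (hsum _ _ _ (fun i => hCE i i (hl i))).2
    rw [g6, hone.2] at e1
    have e2 := congrArg Matrix.trace e1
    rw [Matrix.trace_one, Matrix.trace_sum] at e2
    rw [e2]
    exact Finset.sum_congr rfl (fun i _ => (hd i).symm)
  have htot' : ∑ v, nn v * d (bas v) = ∑ v, nn v := by
    have h1 : ∑ i : II, d i = Fintype.card II := by exact_mod_cast htot
    have h2 : ∑ i : II, d i = ∑ v, nn v * d (bas v) := by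
      rw [Fintype.sum_sigma]
      apply Finset.sum_congr rfl
      intro v _
      rw [Finset.sum_congr rfl (fun (y : Fin (nn v)) _ => hblock ⟨v, y⟩)]
      simp
    rw [← h2, h1]
    simp [II, Fintype.card_sigma]
  intro i
  rw [hd i, hblock i, hN.1 (fun v => d (bas v)) htot' i.1]
  simp

end

end Pool.OPP
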