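import Mathlib
import Pool.Agent.H7.OPP.Stmts

/-!
# OPP, module R1B: a self-adjoint idempotent matrix of trace one is `ξ ξ*`
-/

set_option autoImplicit false

namespace Pool.OPP

open scoped Topology ComplexConjugate ComplexOrder Matrix

noncomputable section

/-- a self-adjoint idempotent of trace one has rank one -/
theorem R1B_rank_one {n : Type} [Fintype n] [DecidableEq n] (P : Matrix n n ℂ)
    (hs : star P = P) (h : P * P = P) (ht : Matrix.trace P = 1) :
    ∃ ξ : n → ℂ, (∑ i, conj (ξ i) * ξ i = 1) ∧ ∀ a b, P a b = ξ a * conj (ξ b) := by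
  have hs' : ∀ a b, conj (P b a) = P a b := by
    intro a b
    have := congrFun (congrFun hs a) b
    simpa [Matrix.star_apply] using this
  have hh : ∀ a b, ∑ c, P a c * P c b = P a b := by
    intro a b
    have := congrFun (congrFun h a) b
    simpa [Matrix.mul_apply] using this
  -- a nonzero diagonal entry
  obtain ⟨b, hb⟩ : ∃ b, P b b ≠ 0 := by
    by_contra hcon
    push Not at hcon
    have : Matrix.trace P = 0 := by
      unfold Matrix.trace
      simp [hcon]
    rw [this] at ht
    exact zero_ne_one ht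
  have hbb : P b b = ((∑ c, ‖P c b‖ ^ 2 : ℝ) : ℂ) := by
    rw [← hh b b]
    push_cast
    apply Finset.sum_congr rfl
    intro c _
    rw [← hs' b c, ← Complex.conj_mul']
  set r : ℝ := ∑ c, ‖P c b‖ ^ 2 with hr
  have hr0 : 0 ≤ r := Finset.sum_nonneg (fun c _ => by positivity)
  have hr1 : r ≠ 0 := by
    intro h0
    rw [h0] at hbb
    exact hb (by simpa using hbb)
  have hrpos : 0 < r := lt_of_le_of_ne hr0 (Ne.symm hr1)
  have hsq : (Real.sqrt r : ℂ) * (Real.sqrt r : ℂ) = (r : ℂ) := by
    rw [← Complex.ofReal_mul, Real.mul_self_sqrt hr0]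
  have hsne : (Real.sqrt r : ℂ) ≠ 0 := by
    rw [Complex.ofReal_ne_zero]
    exact (Real.sqrt_pos.2 hrpos).ne'
  let ξ : n → ℂ := fun a => P a b / (Real.sqrt r : ℂ)
  have hξc : ∀ a, conj (ξ a) = P b a / (Real.sqrt r : ℂ) := by
    intro a
    simp only [ξ, map_div₀, Complex.conj_ofReal]
    rw [← hs' b a]
  have hξ1 : ∑ i, conj (ξ i) * ξ i = 1 := by
    have : ∀ i, conj (ξ i) * ξ i = (P b i * P i b) / (r : ℂ) := by
      intro i
      rw [hξc i, ← hsq]
      simp only [ξ]
      field_simp
    rw [Finset.sum_congr rfl (fun i _ => this i), ← Finset.sum_div, hh, hbb]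
    exact div_self (by exact_mod_cast hr1)
  have hPξ : ∀ a, ∑ c, P a c * ξ c = ξ a := by
    intro a
    simp only [ξ]
    rw [← hh a b, Finset.sum_div]
    apply Finset.sum_congr rfl
    intro c _
    ring
  have hξP : ∀ a, ∑ c, conj (ξ c) * P c a = conj (ξ a) := by
    intro a
    rw [hξc a, ← hh b a, Finset.sum_div]
    apply Finset.sum_congr rfl
    intro c _
    rw [hξc c]
    ring
  refine ⟨ξ, hξ1, ?_⟩
  -- the difference
  let Q : Matrix n n ℂ := fun a c => P a c - ξ a * conj (ξ c)
  have hQs : Q.conjTranspose = Q := by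
    ext a c
    show conj (P c a - ξ c * conj (ξ a)) = P a c - ξ a * conj (ξ c)
    rw [map_sub, map_mul, hs', Complex.conj_conj]
    ring
  have hQQ : Q * Q = Q := by
    ext a c
    rw [Matrix.mul_apply]
    show ∑ e, (P a e - ξ a * conj (ξ e)) * (P e c - ξ e * conj (ξ c)) = P a c - ξ a * conj (ξ c)
    have : ∀ e, (P a e - ξ a * conj (ξ e)) * (P e c - ξ e * conj (ξ c)) =
        P a e * P e c - (P a e * ξ e) * conj (ξ c) - ξ a * (conj (ξ e) * P e c) +
          ξ a * conj (ξ c) * (conj (ξ e) * ξ e) := by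
      intro e; ring
    rw [Finset.sum_congr rfl (fun e _ => this e), Finset.sum_add_distrib, Finset.sum_sub_distrib,
      Finset.sum_sub_distrib, hh, ← Finset.sum_mul, hPξ, ← Finset.mul_sum, hξP, ← Finset.mul_sum,
      hξ1]
    ring
  have hQt : Matrix.trace Q = 0 := by
    have e1 : Matrix.trace Q = Matrix.trace P - ∑ i, conj (ξ i) * ξ i := by
      unfold Matrix.trace
      rw [← Finset.sum_sub_distrib]
      apply Finset.sum_congr rfl
      intro i _
      simp only [Matrix.diag, Q]
      ring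
    rw [e1, ht, hξ1, sub_self]
  have hQ0 : Q = 0 := by
    rw [← Matrix.trace_conjTranspose_mul_self_eq_zero_iff, hQs, hQQ, hQt]
  intro a c
  have := congrFun (congrFun hQ0 a) c
  simp only [Q, Matrix.zero_apply] at this
  exact sub_eq_zero.1 this

theorem sR1b (h1 : SR1) (hR : SRr0) (hG : SGen) : SR1b := by
  classical
  intro θ x hx i
  obtain ⟨hadd, hst, hone, -, -⟩ := hR θ x
  obtain ⟨g1, g2, g3, g4, g5, -⟩ := hG
  have hE : gen (Sum.inl (i, i)) = gE i i := by simp [gen, linked]
  have hC : Cm θ x (gE i i) := by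
    have : Cm θ x (gen (Sum.inl (i, i))) := ⟨(g1 _).2, hx _⟩
    rwa [hE] at this
  have hs : star (RR θ x (gE i i)) = RR θ x (gE i i) := by
    rw [← (hst _ hC).1, g4]
  have hi : RR θ x (gE i i) * RR θ x (gE i i) = RR θ x (gE i i) := by
    rw [← (hadd _ _ hC hC).1, g5, if_pos rfl]
  obtain ⟨ξ, h1', h2⟩ := R1B_rank_one _ hs hi (h1 θ x hx i)
  exact ⟨ξ, h1', h2⟩

end

end Pool.OPP
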